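import Pool.Agent.H777R4.DM.Stmts

/-!
# Task TwoC of project H777-DSH (double shuffle Lie algebra)
-/

set_option autoImplicit false

namespace Pool.Agent.H352.DSH

open Pool.Agent.H777R4.DM

attribute [local instance 100] LieRing.ofAssociativeRing

variable {α V : Type} [AddCommGroup V] [Module ℚ V]

lemma wd_append (l l' : List α) : wd (l ++ l') = wd l * wd l' := by
  simp [wd, FreeMonoid.ofList_append]

lemma wd_nil : (wd [] : Al α) = 1 := by
  unfold wd
  exact map_one _

lemma lext_wd (F : List α → V) (l : List α) : lext F (wd l) = F l := by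
  simp [lext, wd]

lemma co_wd [DecidableEq α] (l l' : List α) : co (wd l) l' = if l = l' then 1 else 0 := by
  classical
  unfold co wd
  rw [MonoidAlgebra.of_apply, MonoidAlgebra.coeff_single_apply]
  simp

/-- The coefficient as a linear map. -/
noncomputable def coL (l : List α) : Al α →ₗ[ℚ] ℚ :=
  (Finsupp.lapply (FreeMonoid.ofList l)) ∘ₗ (MonoidAlgebra.coeffLinearEquiv ℚ).toLinearMap

lemma coL_apply (l : List α) (P : Al α) : coL l P = co P l := rfl

lemma ind_words {p : Al α → Prop} (h0 : p 0) (hadd : ∀ P Q, p P → p Q → p (P + Q))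
    (hs : ∀ (c : ℚ) (l : List α), p (c • wd l)) (P : Al α) : p P := by
  induction P using MonoidAlgebra.induction_linear with
  | zero => exact h0
  | add f g hf hg => exact hadd f g hf hg
  | single m r =>
    have := hs r (FreeMonoid.toList m)
    simpa [wd, MonoidAlgebra.of_apply] using this

/-- The derivation `x_i ↦ 1`, other letters `↦ 0`, on words. -/
noncomputable def dW (i : Fin 2) : List (Fin 2) → A
  | [] => 0
  | k :: u => (if k = i then wd u else 0) + wd [k] * dW i u

lemma dW_append (i : Fin 2) (u v : List (Fin 2)) :
    dW i (u ++ v) = dW i u * wd v + wd u * dW i v := by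
  induction u with
  | nil => simp [dW, wd_nil]
  | cons k u ih =>
    simp only [List.cons_append, dW]
    rw [ih, ← List.singleton_append (x := k) (l := u), wd_append [k] u]
    split_ifs with h
    · rw [wd_append]; noncomm_ring
    · noncomm_ring

/-- The derivation `x_i ↦ 1`, other letters `↦ 0`. -/
noncomputable def dd (i : Fin 2) : A →ₗ[ℚ] A := lext (dW i)

lemma dd_mul (i : Fin 2) (P Q : A) : dd i (P * Q) = dd i P * Q + P * dd i Q := by
  induction P using ind_words with
  | h0 => simp
  | hadd P P' h h' => rw [add_mul, map_add, h, h', map_add]; noncomm_ring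
  | hs c l =>
    induction Q using ind_words with
    | h0 => simp
    | hadd P P' h h' => rw [mul_add, map_add, h, h', map_add]; noncomm_ring
    | hs c' l' =>
      rw [smul_mul_smul_comm, ← wd_append, map_smul, map_smul, map_smul]
      simp only [dd, lext_wd, dW_append, smul_mul_smul_comm, smul_add]

lemma co_single_mul (k : Fin 2) (P : A) (w : List (Fin 2)) :
    co (wd [k] * P) w = match w with
      | [] => 0
      | k' :: w' => if k = k' then co P w' else 0 := by
  induction P using ind_words with
  | h0 => cases w <;> simp [co]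
  | hadd P Q h h' =>
    rw [mul_add, ← coL_apply, map_add, coL_apply, coL_apply, h, h']
    cases w with
    | nil => simp
    | cons k' w' =>
      simp only
      split_ifs
      · rw [← coL_apply, ← coL_apply, ← coL_apply, map_add]
      · simp
  | hs c l =>
    rw [mul_smul_comm, ← wd_append, ← coL_apply, map_smul, coL_apply, co_wd]
    cases w with
    | nil => simp
    | cons k' w' =>
      simp only [List.singleton_append, List.cons.injEq, smul_eq_mul]
      split_ifs with h1 h2 h3
      · rw [← coL_apply, map_smul, coL_apply, co_wd, if_pos h1.2, smul_eq_mul]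
      · exact absurd h1.1 h2
      · rw [← coL_apply, map_smul, coL_apply, co_wd, if_neg (fun h => h1 ⟨h3, h⟩)]
        simp
      · simp

lemma co_dW (i : Fin 2) (u w : List (Fin 2)) :
    co (dW i u) w = ∑ j ∈ Finset.range (w.length + 1), co (wd u) (w.insertIdx j i) := by
  induction u generalizing w with
  | nil =>
    symm
    have : ∀ j ∈ Finset.range (w.length + 1), co (wd ([] : List (Fin 2))) (w.insertIdx j i) = 0 := by
      intro j hj
      rw [co_wd, if_neg]
      intro h
      have := congrArg List.length h
      rw [List.length_insertIdx_of_le_length (by simpa [Nat.lt_succ_iff] using hj)] at this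
      simp at this
    rw [Finset.sum_eq_zero this]
    simp [dW, co]
  | cons k u ih =>
    rw [dW, ← coL_apply, map_add, coL_apply, coL_apply, co_single_mul, Finset.sum_range_succ']
    simp only [List.insertIdx_zero]
    rw [add_comm]
    congr 1
    · cases w with
      | nil => simp
      | cons k' w' =>
        simp only [List.length_cons, List.insertIdx_succ_cons, co_wd, List.cons.injEq]
        split_ifs with h
        · rw [ih]
          simp [h, co_wd]
        · simp [h]
    · split_ifs with h
      · rw [co_wd, co_wd]
        simp [h]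
      · rw [co_wd]
        simp [h, co]

lemma co_dd (i : Fin 2) (P : A) (w : List (Fin 2)) :
    co (dd i P) w = ∑ j ∈ Finset.range (w.length + 1), co P (w.insertIdx j i) := by
  induction P using ind_words with
  | h0 => simp [co]
  | hadd P Q h h' =>
    rw [map_add, ← coL_apply, map_add, coL_apply, coL_apply, h, h', ← Finset.sum_add_distrib]
    refine Finset.sum_congr rfl fun j _ => ?_
    rw [← coL_apply, ← coL_apply, ← coL_apply, map_add]
  | hs c l =>
    rw [map_smul, ← coL_apply, map_smul, coL_apply, dd, lext_wd, co_dW, smul_eq_mul, Finset.mul_sum]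
    refine Finset.sum_congr rfl fun j _ => ?_
    rw [← coL_apply, ← coL_apply, map_smul, smul_eq_mul]

lemma dd_lie (i : Fin 2) (P : A) (hP : P ∈ LieX) : ∃ c : ℚ, dd i P = c • 1 := by
  unfold LieX at hP
  induction hP using LieSubalgebra.lieSpan_induction with
  | mem x hx =>
    rcases hx with rfl | rfl
    · refine ⟨if (0 : Fin 2) = i then 1 else 0, ?_⟩
      simp [dd, x, lext_wd, dW, wd_nil]
    · refine ⟨if (1 : Fin 2) = i then 1 else 0, ?_⟩
      simp [dd, x, lext_wd, dW, wd_nil]
  | zero => exact ⟨0, by simp⟩
  | add P Q _ _ h h' =>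
    obtain ⟨c, h⟩ := h
    obtain ⟨d, h'⟩ := h'
    exact ⟨c + d, by rw [map_add, h, h', add_smul]⟩
  | smul r P _ h =>
    obtain ⟨c, h⟩ := h
    exact ⟨r * c, by rw [map_smul, h, mul_smul]⟩
  | lie P Q _ _ h h' =>
    obtain ⟨c, h⟩ := h
    obtain ⟨d, h'⟩ := h'
    refine ⟨0, ?_⟩
    rw [LieRing.of_associative_ring_bracket, map_sub, dd_mul, dd_mul, h, h']
    simp only [smul_mul_assoc, one_mul, mul_smul_comm, mul_one, zero_smul]
    abel

theorem taskTwoC : TaskTwoC := by
  intro ψ hψ i hi w
  obtain ⟨c, hc⟩ := dd_lie i ψ hψ
  have h1 := co_dd i ψ []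
  simp only [List.length_nil, zero_add, Finset.range_one, Finset.sum_singleton,
    List.insertIdx_zero] at h1
  rw [hi, hc] at h1
  have hc0 : c = 0 := by
    rw [← coL_apply, map_smul, coL_apply, ← wd_nil, co_wd] at h1
    simpa using h1
  rw [← co_dd, hc, hc0]
  simp [co]

end Pool.Agent.H352.DSH
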